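import Mathlib
import Pool.Agent.N931.PN.Stm
import Pool.Agent.N116.EW.Close
import Pool.Agent.N839.EW.PL

set_option autoImplicit false

/-! The effect of a flip on a Lipschitz function of the exploration path. -/

namespace Pool.Agent.N674.PN.Dif

open H974 H12S H389NS H984N H984P H342P Finset
open Pool.Agent.N116.EW Pool.Agent.N931.PN
open H342L (cdist Curve)

theorem pl_congr {N : ℕ} {p q : ℕ → ℂ} (h : ∀ k ≤ N, p k = q k) : pl N p = pl N q := by
  ext s
  show p 0 + ∑ k ∈ Finset.range N, ((clamp (s * N - k) : ℝ) : ℂ) * (p (k + 1) - p k) =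
    q 0 + ∑ k ∈ Finset.range N, ((clamp (s * N - k) : ℝ) : ℂ) * (q (k + 1) - q k)
  rw [h 0 (Nat.zero_le _)]
  congr 1
  refine Finset.sum_congr rfl fun k hk => ?_
  have hk' := Finset.mem_range.1 hk
  rw [h k (by omega), h (k + 1) (by omega)]

theorem curve_congr (R : Rect) (δ : ℝ) {F G : Finset Edg}
    (h1 : (R.dm δ).len G = (R.dm δ).len F)
    (h2 : ∀ k ≤ (R.dm δ).len F, (R.dm δ).walk G k = (R.dm δ).walk F k) :
    R.curve δ G = R.curve δ F := by
  show pl ((R.dm δ).len G) (fun k => pos δ ((R.dm δ).walk G k)) =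
    pl ((R.dm δ).len F) (fun k => pos δ ((R.dm δ).walk F k))
  rw [h1]
  refine pl_congr fun k hk => ?_
  rw [h2 k hk]

/-- no long excursion -/
theorem small (hPL : S_PL) (R : Rect) {δ : ℝ} (hδ : 0 < δ) (hD : (R.dm δ).Ok) {f : Curve → ℝ}
    (hf : ∀ γ γ', |f γ - f γ'| ≤ dist γ γ') {B G : Finset Edg}
    (hG : G ⊆ (R.dm δ).edges) {ρ : ℕ} (hρ : 1 ≤ ρ) (h : ¬ LG (R.dm δ) B ρ G) :
    |f ⟨R.curve δ G⟩ - f ⟨R.curve δ (G \ B)⟩| ≤ δ * (4 * ρ + 9) := by
  have h1 : ¬ BadV (R.dm δ) ρ (G \ B) G := fun h1 => h (Or.inl h1)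
  have h2 : ¬ BadW (R.dm δ) ρ (G \ B) G := fun h1 => h (Or.inr h1)
  have h3 := close hPL R hδ hD (F := G \ B) (G := G) Finset.sdiff_subset hG hρ h1 h2
  rw [abs_sub_comm]
  exact (hf _ _).trans h3

theorem main_of (hPL : S_PL) (hS : S_STOP) : S_DIF := by
  classical
  intro R δ hδ hD f hfL hf1 e he F hF K hK
  have hF0 : F.erase e ⊆ (R.dm δ).edges := (Finset.erase_subset _ _).trans hF
  have hG : insert e F ⊆ (R.dm δ).edges := Finset.insert_subset he hF
  have hsd : (insert e F) \ {e} = F.erase e := by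
    rw [Finset.sdiff_singleton_eq_erase, Finset.erase_insert_eq_erase]
  have hterm : ∀ k ∈ Finset.range K, 0 ≤ 29 * δ * 2 ^ k * ind (EV (R.dm δ) e k F) :=
    fun k _ => mul_nonneg (by positivity) (ind_nonneg _)
  have hlast : 0 ≤ 2 * ind (EV (R.dm δ) e K F) := mul_nonneg (by norm_num) (ind_nonneg _)
  have hsum := Finset.sum_nonneg hterm
  have hdif : dif e (fun G => f ⟨R.curve δ G⟩) F =
      f ⟨R.curve δ (insert e F)⟩ - f ⟨R.curve δ (F.erase e)⟩ := by
    unfold dif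
    congr!
  rw [hdif]
  by_cases h0 : e ∈ JJ (R.dm δ) (F.erase e)
  · have hE0 : EV (R.dm δ) e 0 F := by
      unfold EV
      rw [if_pos rfl]
      exact h0
    by_cases hEK : EV (R.dm δ) e K F
    · have h1 : |f ⟨R.curve δ (insert e F)⟩ - f ⟨R.curve δ (F.erase e)⟩| ≤ 2 := by
        have h2 := hf1 ⟨R.curve δ (insert e F)⟩
        have h3 := hf1 ⟨R.curve δ (F.erase e)⟩
        rw [abs_le] at h2 h3 ⊢
        constructor <;> linarith [h2.1, h2.2, h3.1, h3.2]
      rw [ind_of hEK]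
      linarith
    · have hex : ∃ j, 1 ≤ j ∧ ¬ EV (R.dm δ) e j F := ⟨K, hK, hEK⟩
      obtain ⟨hj1, hj2⟩ := Nat.find_spec hex
      have hjK : Nat.find hex ≤ K := Nat.find_min' hex ⟨hK, hEK⟩
      have hmin : ∀ i, 1 ≤ i → i < Nat.find hex → EV (R.dm δ) e i F := by
        intro i hi1 hi2
        by_contra h
        exact Nat.find_min hex hi2 ⟨hi1, h⟩
      obtain ⟨i, hi⟩ : ∃ i, Nat.find hex = i + 1 := ⟨Nat.find hex - 1, by omega⟩
      rw [hi] at hj2 hjK hmin
      have hEi : EV (R.dm δ) e i F := by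
        rcases Nat.eq_zero_or_pos i with h | h
        · rw [h]; exact hE0
        · exact hmin i h (Nat.lt_succ_self i)
      have hLG : ¬ LG (R.dm δ) {e} (2 ^ (i + 1 + 1) + 1) (insert e F) := by
        intro h
        apply hj2
        unfold EV
        rw [if_neg (Nat.succ_ne_zero i)]
        exact h
      have h1 := small hPL R hδ hD hfL hG (Nat.le_add_left 1 _) hLG
      rw [hsd] at h1
      have h2 : δ * (4 * ((2 ^ (i + 1 + 1) + 1 : ℕ) : ℝ) + 9) ≤ 29 * δ * 2 ^ i := by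
        push_cast
        have h3 : (1 : ℝ) ≤ 2 ^ i := one_le_pow₀ (by norm_num)
        have h4 : (2 : ℝ) ^ (i + 1 + 1) = 4 * 2 ^ i := by ring
        rw [h4]
        nlinarith
      have h3 : 29 * δ * 2 ^ i * ind (EV (R.dm δ) e i F) ≤
          ∑ k ∈ Finset.range K, 29 * δ * 2 ^ k * ind (EV (R.dm δ) e k F) :=
        Finset.single_le_sum hterm (Finset.mem_range.2 hjK)
      rw [ind_of hEi, mul_one] at h3
      linarith
  · have h1 : F.erase e ∩ JJ (R.dm δ) (F.erase e) = insert e F ∩ JJ (R.dm δ) (F.erase e) := by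
      ext x
      simp only [Finset.mem_inter, Finset.mem_erase, Finset.mem_insert]
      constructor
      · rintro ⟨⟨_, h2⟩, h3⟩
        exact ⟨Or.inr h2, h3⟩
      · rintro ⟨h2, h3⟩
        have h4 : x ≠ e := by
          rintro rfl
          exact h0 h3
        exact ⟨⟨h4, h2.resolve_left h4⟩, h3⟩
    obtain ⟨h2, h3⟩ := hS (R.dm δ) hD (F.erase e) (insert e F) hF0 hG h1
    rw [curve_congr R δ h2 h3, sub_self, abs_zero]
    linarith

/-- S_DIF from the stopping property -/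
theorem main (hS : S_STOP) : S_DIF := main_of Pool.Agent.N839.EW.plIso hS

end Pool.Agent.N674.PN.Dif
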